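import Pool.Agent.Helper21.CM.FL

/-!
# Cell systems over a signed cell complex

* `act` : the translations of the chains `G × I →₀ k`; `lin ρ φ` : the equivariant extension of `φ : I → M`.
* `SCx k G Q` : a cell complex with cells `Q`, orientations, incidence numbers and an action of `G` with signs.
* `CSys X S` : a system of cells `G × I` over the set `S` of cells of `X`, with free columns.
* `CSys.filt` : the filtration lemma applies to the part over any subcomplex.
-/

set_option autoImplicit false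

namespace Cm

open Finsupp

section lin

variable {k : Type*} [CommRing k] {G : Type*} [Group G] {I M M' : Type*} [AddCommGroup M] [Module k M]
  [AddCommGroup M'] [Module k M']

variable (k G I) in
/-- translation of chains -/
noncomputable def act : Representation k G (G × I →₀ k) where
  toFun g := Finsupp.lmapDomain k k (fun x => (g * x.1, x.2))
  map_one' := by
    refine Finsupp.lhom_ext' fun x => LinearMap.ext fun a => ?_
    simp [Finsupp.mapDomain_single]
  map_mul' g h := by
    refine Finsupp.lhom_ext' fun x => LinearMap.ext fun a => ?_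
    simp [Finsupp.mapDomain_single, mul_assoc]

lemma act_single (g : G) (x : G × I) (a : k) : act k G I g (single x a) = single (g * x.1, x.2) a := by
  show Finsupp.mapDomain _ _ = _
  rw [Finsupp.mapDomain_single]

lemma act_apply (g : G) (c : G × I →₀ k) (x : G × I) : act k G I g c x = c (g⁻¹ * x.1, x.2) := by
  have h : Function.Injective (fun x : G × I => (g * x.1, x.2)) := by
    rintro ⟨a, i⟩ ⟨b, j⟩ h
    simpa using h
  have h2 : x = (fun x : G × I => (g * x.1, x.2)) (g⁻¹ * x.1, x.2) := by
    simp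
  show Finsupp.mapDomain _ c x = _
  conv_lhs => rw [h2]
  exact Finsupp.mapDomain_apply h c _

/-- the equivariant extension of `φ` -/
noncomputable def lin (ρ : Representation k G M) (φ : I → M) : (G × I →₀ k) →ₗ[k] M :=
  Finsupp.linearCombination k (fun x : G × I => ρ x.1 (φ x.2))

lemma lin_single (ρ : Representation k G M) (φ : I → M) (x : G × I) (a : k) :
    lin ρ φ (single x a) = a • ρ x.1 (φ x.2) := by
  show Finsupp.linearCombination k _ _ = _
  rw [Finsupp.linearCombination_single]

lemma lin_act (ρ : Representation k G M) (φ : I → M) (g : G) (c : G × I →₀ k) :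
    lin ρ φ (act k G I g c) = ρ g (lin ρ φ c) := by
  have h : (lin ρ φ).comp (act k G I g) = (ρ g).comp (lin ρ φ) := by
    refine Finsupp.lhom_ext' fun x => LinearMap.ext fun a => ?_
    show lin ρ φ (act k G I g (single x a)) = ρ g (lin ρ φ (single x a))
    rw [act_single, lin_single, lin_single, map_smul, map_mul]
    rfl
  exact LinearMap.congr_fun h c

lemma map_lin (ρ : Representation k G M) (ρ' : Representation k G M') (T : M →ₗ[k] M')
    (hT : ∀ g m, T (ρ g m) = ρ' g (T m)) (φ : I → M) (c : G × I →₀ k) :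
    T (lin ρ φ c) = lin ρ' (fun i => T (φ i)) c := by
  have h : T.comp (lin ρ φ) = lin ρ' (fun i => T (φ i)) := by
    refine Finsupp.lhom_ext' fun x => LinearMap.ext fun a => ?_
    show T (lin ρ φ (single x a)) = lin ρ' (fun i => T (φ i)) (single x a)
    rw [lin_single, lin_single, map_smul, hT]
  exact LinearMap.congr_fun h c

lemma lin_eq_sum (ρ : Representation k G M) (φ : I → M) (c : G × I →₀ k) :
    lin ρ φ c = c.sum fun x a => a • ρ x.1 (φ x.2) := rfl

lemma lin_zero (ρ : Representation k G M) (φ : I → M) (h : ∀ i, φ i = 0) : lin ρ φ = 0 := by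
  refine Finsupp.lhom_ext' fun x => LinearMap.ext fun a => ?_
  show lin ρ φ (single x a) = 0
  rw [lin_single, h, map_zero, smul_zero]

end lin

/-- a cell complex with cells `Q`, face relation `le`, incidence numbers `inc` and an action of `G` with signs `sg` -/
structure SCx (k : Type*) [CommRing k] (G : Type*) [Group G] (Q : Type*) [MulAction G Q] where
  le : Q → Q → Prop
  refl : ∀ t, le t t
  trans : ∀ r s t, le r s → le s t → le r t
  le_smul : ∀ (g : G) s t, le s t → le (g • s) (g • t)
  dim : Q → ℕ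
  dim_smul : ∀ (g : G) t, dim (g • t) = dim t
  dim_lt : ∀ s t, le s t → s ≠ t → dim s < dim t
  sg : G → Q → k
  sg_one : ∀ t, sg 1 t = 1
  sg_mul : ∀ g h t, sg (g * h) t = sg g (h • t) * sg h t
  sg_sq : ∀ g t, sg g t * sg g t = 1
  inc : Q → (Q →₀ k)
  inc_le : ∀ t, ∀ s ∈ (inc t).support, le s t ∧ dim s + 1 = dim t
  inc_smul : ∀ g t, sg g t • inc (g • t) = Finsupp.linearCombination k (fun t => single (g • t) (sg g t)) (inc t)
  bdbd : ∀ t, Finsupp.linearCombination k inc (inc t) = 0

namespace SCx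

variable {k : Type*} [CommRing k] {G : Type*} [Group G] {Q : Type*} [MulAction G Q] (X : SCx k G Q)

/-- the action with signs -/
noncomputable def sact : Representation k G (Q →₀ k) where
  toFun g := Finsupp.linearCombination k (fun t => single (g • t) (X.sg g t))
  map_one' := by
    refine Finsupp.lhom_ext' fun x => LinearMap.ext fun a => ?_
    simp [X.sg_one]
  map_mul' g h := by
    refine Finsupp.lhom_ext' fun x => LinearMap.ext fun a => ?_
    show Finsupp.linearCombination k _ (single x a) =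
      Finsupp.linearCombination k _ (Finsupp.linearCombination k _ (single x a))
    rw [Finsupp.linearCombination_single, Finsupp.linearCombination_single, smul_single, smul_single,
      Finsupp.linearCombination_single, smul_single, X.sg_mul, mul_smul]
    simp only [smul_eq_mul]
    congr 1
    ring

lemma sact_single (g : G) (t : Q) (a : k) : X.sact g (single t a) = single (g • t) (a * X.sg g t) := by
  show Finsupp.linearCombination k _ _ = _
  rw [Finsupp.linearCombination_single, smul_single, smul_eq_mul]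

/-- the boundary -/
noncomputable def bd : (Q →₀ k) →ₗ[k] (Q →₀ k) := Finsupp.linearCombination k X.inc

lemma bd_single (t : Q) (a : k) : X.bd (single t a) = a • X.inc t := by
  show Finsupp.linearCombination k _ _ = _
  rw [Finsupp.linearCombination_single]

lemma bd_sact (g : G) (y : Q →₀ k) : X.bd (X.sact g y) = X.sact g (X.bd y) := by
  have h : X.bd.comp (X.sact g) = (X.sact g).comp X.bd := by
    refine Finsupp.lhom_ext' fun x => LinearMap.ext fun a => ?_
    show X.bd (X.sact g (single x a)) = X.sact g (X.bd (single x a))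
    rw [sact_single, bd_single, bd_single, map_smul, mul_smul, X.inc_smul]
    rfl
  exact LinearMap.congr_fun h y

lemma bd_bd (y : Q →₀ k) : X.bd (X.bd y) = 0 := by
  have h : X.bd.comp X.bd = 0 := by
    refine Finsupp.lhom_ext' fun x => LinearMap.ext fun a => ?_
    show X.bd (X.bd (single x a)) = 0
    rw [bd_single, map_smul]
    rw [show X.bd (X.inc x) = 0 from X.bdbd x, smul_zero]
  exact LinearMap.congr_fun h y

lemma le_smul_iff (g : G) (s t : Q) : X.le (g • s) (g • t) ↔ X.le s t := by
  refine ⟨fun h => ?_, X.le_smul g s t⟩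
  have := X.le_smul g⁻¹ _ _ h
  rwa [inv_smul_smul, inv_smul_smul] at this

end SCx

/-- a system of cells over the set `S` of cells of `X`: the cell `(g, i)` lies over the cell `g • τ i` of `X` -/
structure CSys {k : Type*} [CommRing k] {G : Type*} [Group G] {Q : Type*} [MulAction G Q] (X : SCx k G Q)
    (S : Set Q) where
  I : Type
  deg : I → ℕ
  fin : ∀ j, {i | deg i = j}.Finite
  τ : I → Q
  mem : ∀ i, τ i ∈ S
  dim_le : ∀ i, X.dim (τ i) ≤ deg i
  d : I → (G × I →₀ k)
  d_deg : ∀ i, ∀ x ∈ (d i).support, deg x.2 + 1 = deg i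
  d_le : ∀ i, ∀ x ∈ (d i).support, X.le (x.1 • τ x.2) (τ i)
  dd : ∀ i, lin (act k G I) d (d i) = 0
  e : I → k
  e_zero : ∀ i, X.dim (τ i) ≠ deg i → e i = 0
  comm : ∀ i, lin X.sact (fun i => single (τ i) (e i)) (d i) = e i • X.inc (τ i)
  surj : ∀ t ∈ S, ∃ c ∈ Finsupp.supported k k {x : G × I | x.1 • τ x.2 = t ∧ deg x.2 = X.dim t},
    lin X.sact (fun i => single (τ i) (e i)) c = single t 1
  ex0 : ∀ t ∈ S, ∀ c ∈ Finsupp.supported k k {x : G × I | x.1 • τ x.2 = t ∧ deg x.2 = X.dim t},
    lin X.sact (fun i => single (τ i) (e i)) c = 0 →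
    ∃ u ∈ Finsupp.supported k k {x : G × I | x.1 • τ x.2 = t ∧ deg x.2 = X.dim t + 1},
      ∀ x : G × I, x.1 • τ x.2 = t → lin (act k G I) d u x = c x
  ex1 : ∀ t ∈ S, ∀ j, X.dim t ≤ j → ∀ c ∈ Finsupp.supported k k {x : G × I | x.1 • τ x.2 = t ∧ deg x.2 = j + 1},
    (∀ x : G × I, x.1 • τ x.2 = t → lin (act k G I) d c x = 0) →
    ∃ u ∈ Finsupp.supported k k {x : G × I | x.1 • τ x.2 = t ∧ deg x.2 = j + 2},
      ∀ x : G × I, x.1 • τ x.2 = t → lin (act k G I) d u x = c x

namespace CSys

variable {k : Type*} [CommRing k] {G : Type*} [Group G] {Q : Type*} [MulAction G Q] {X : SCx k G Q} {S : Set Q}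
  (C : CSys X S)

/-- the differential -/
noncomputable def D : (G × C.I →₀ k) →ₗ[k] (G × C.I →₀ k) := lin (act k G C.I) C.d

/-- the augmentation -/
noncomputable def ε : (G × C.I →₀ k) →ₗ[k] (Q →₀ k) := lin X.sact (fun i => single (C.τ i) (C.e i))

/-- the cell of `X` below a cell -/
def cub (x : G × C.I) : Q := x.1 • C.τ x.2

lemma D_act (g : G) (c : G × C.I →₀ k) : C.D (act k G C.I g c) = act k G C.I g (C.D c) := lin_act _ _ _ _

lemma ε_act (g : G) (c : G × C.I →₀ k) : C.ε (act k G C.I g c) = X.sact g (C.ε c) := lin_act _ _ _ _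

lemma D_D (c : G × C.I →₀ k) : C.D (C.D c) = 0 := by
  show lin (act k G C.I) C.d (lin (act k G C.I) C.d c) = 0
  rw [map_lin (act k G C.I) (act k G C.I) (lin (act k G C.I) C.d) (fun g m => lin_act _ _ _ _),
    lin_zero _ _ (fun i => C.dd i)]
  rfl

lemma ε_D (c : G × C.I →₀ k) : C.ε (C.D c) = X.bd (C.ε c) := by
  show lin X.sact (fun i => single (C.τ i) (C.e i)) (lin (act k G C.I) C.d c) =
    X.bd (lin X.sact (fun i => single (C.τ i) (C.e i)) c)
  rw [map_lin (act k G C.I) X.sact (lin X.sact _) (fun g m => lin_act _ _ _ _),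
    map_lin X.sact X.sact X.bd (fun g m => X.bd_sact _ _)]
  congr 2
  funext i
  rw [C.comm, X.bd_single]

lemma D_apply (c : G × C.I →₀ k) (x : G × C.I) : C.D c x = c.sum fun y a => a * C.d y.2 (y.1⁻¹ * x.1, x.2) := by
  show (c.sum fun y a => a • act k G C.I y.1 (C.d y.2)) x = _
  rw [Finsupp.sum_apply]
  refine Finsupp.sum_congr fun y _ => ?_
  rw [Finsupp.smul_apply, act_apply, smul_eq_mul]

lemma ε_apply [DecidableEq Q] (c : G × C.I →₀ k) (t : Q) :
    C.ε c t = c.sum fun y a => if C.cub y = t then a * (C.e y.2 * X.sg y.1 (C.τ y.2)) else 0 := by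
  show (c.sum fun y a => a • X.sact y.1 (single (C.τ y.2) (C.e y.2))) t = _
  rw [Finsupp.sum_apply]
  refine Finsupp.sum_congr fun y _ => ?_
  rw [Finsupp.smul_apply, SCx.sact_single, Finsupp.single_apply, smul_eq_mul]
  show _ * (if C.cub y = t then _ else _) = _
  split <;> simp

/-- the value of `D c` at `x` depends only on the values of `c` over the cells above that of `x` -/
lemma D_congr {c c' : G × C.I →₀ k} {x : G × C.I} (h : ∀ y, X.le (C.cub x) (C.cub y) → c y = c' y) :
    C.D c x = C.D c' x := by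
  have h1 : C.D (c - c') x = 0 := by
    rw [D_apply]
    refine Finset.sum_eq_zero fun y hy => ?_
    show (c - c') y * C.d y.2 (y.1⁻¹ * x.1, x.2) = 0
    by_cases h2 : C.d y.2 (y.1⁻¹ * x.1, x.2) = 0
    · rw [h2, mul_zero]
    · have h3 := C.d_le y.2 (y.1⁻¹ * x.1, x.2) (Finsupp.mem_support_iff.2 h2)
      have h4 : X.le (C.cub x) (C.cub y) := by
        have := X.le_smul y.1 _ _ h3
        rwa [mul_smul, smul_inv_smul] at this
      rw [Finsupp.sub_apply, h y h4, sub_self, zero_mul]
  rw [map_sub, Finsupp.sub_apply, sub_eq_zero] at h1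
  exact h1

lemma ε_congr {c c' : G × C.I →₀ k} {t : Q} (h : ∀ y, C.cub y = t → C.deg y.2 = X.dim t → c y = c' y) :
    C.ε c t = C.ε c' t := by
  classical
  have h1 : C.ε (c - c') t = 0 := by
    rw [ε_apply]
    refine Finset.sum_eq_zero fun y hy => ?_
    show (if C.cub y = t then (c - c') y * (C.e y.2 * X.sg y.1 (C.τ y.2)) else 0) = 0
    split
    · next h2 =>
      by_cases h3 : C.deg y.2 = X.dim t
      · rw [Finsupp.sub_apply, h y h2 h3, sub_self, zero_mul]
      · rw [C.e_zero y.2 (fun h4 => h3 ?_), zero_mul, mul_zero]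
        rw [← h4, ← h2]
        exact (X.dim_smul _ _).symm
    · rfl
  rw [map_sub, Finsupp.sub_apply, sub_eq_zero] at h1
  exact h1

open Classical in
/-- the part of a chain over the cell `t` -/
noncomputable def part (t : Q) (c : G × C.I →₀ k) : G × C.I →₀ k := c.filter (fun y => C.cub y = t)

lemma part_pos {t : Q} (c : G × C.I →₀ k) {x : G × C.I} (h : C.cub x = t) : C.part t c x = c x := by
  classical
  exact Finsupp.filter_apply_pos _ _ h

lemma part_neg {t : Q} (c : G × C.I →₀ k) {x : G × C.I} (h : C.cub x ≠ t) : C.part t c x = 0 := by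
  classical
  exact Finsupp.filter_apply_neg _ _ h

/-- chains of degree `j` over the cells of `A` of dimension less than `q` -/
noncomputable def F (A : Set Q) (j q : ℕ) : Submodule k (G × C.I →₀ k) :=
  Finsupp.supported k k {x | C.deg x.2 = j ∧ X.dim (C.cub x) < q ∧ C.cub x ∈ A}

/-- the chains of `X` -/
noncomputable def _root_.Cm.SCx.Yg (X : SCx k G Q) (A : Set Q) (j : ℕ) : Submodule k (Q →₀ k) :=
  Finsupp.supported k k {t | X.dim t = j ∧ t ∈ A}

lemma mem_F {A : Set Q} {j q : ℕ} {c : G × C.I →₀ k} :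
    c ∈ C.F A j q ↔ ∀ x, c x ≠ 0 → C.deg x.2 = j ∧ X.dim (C.cub x) < q ∧ C.cub x ∈ A := by
  unfold F
  rw [Finsupp.mem_supported]
  constructor
  · intro h x hx
    exact h (Finsupp.mem_support_iff.2 hx)
  · intro h x hx
    exact h x (Finsupp.mem_support_iff.1 hx)

lemma dim_cub (x : G × C.I) : X.dim (C.cub x) ≤ C.deg x.2 := by
  unfold cub
  rw [X.dim_smul]
  exact C.dim_le _

lemma D_ne {c : G × C.I →₀ k} {x : G × C.I} (h : C.D c x ≠ 0) :
    ∃ y, c y ≠ 0 ∧ X.le (C.cub x) (C.cub y) ∧ C.deg x.2 + 1 = C.deg y.2 := by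
  rw [D_apply] at h
  obtain ⟨y, hy, hy'⟩ := Finset.exists_ne_zero_of_sum_ne_zero h
  have h2 : C.d y.2 (y.1⁻¹ * x.1, x.2) ≠ 0 := right_ne_zero_of_mul hy'
  have h3 := C.d_le y.2 (y.1⁻¹ * x.1, x.2) (Finsupp.mem_support_iff.2 h2)
  refine ⟨y, left_ne_zero_of_mul hy', ?_, C.d_deg y.2 (y.1⁻¹ * x.1, x.2) (Finsupp.mem_support_iff.2 h2)⟩
  have := X.le_smul y.1 _ _ h3
  rwa [mul_smul, smul_inv_smul] at this

lemma D_mem {A : Set Q} (hA : ∀ s t, X.le s t → t ∈ A → s ∈ A) {j q : ℕ} {c : G × C.I →₀ k}
    (hc : c ∈ C.F A (j + 1) q) : C.D c ∈ C.F A j q := by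
  rw [mem_F] at hc ⊢
  intro x hx
  obtain ⟨y, hy, h1, h2⟩ := C.D_ne hx
  obtain ⟨h3, h4, h5⟩ := hc y hy
  refine ⟨by omega, lt_of_le_of_lt ?_ h4, hA _ _ h1 h5⟩
  by_cases h6 : C.cub x = C.cub y
  · rw [h6]
  · exact (X.dim_lt _ _ h1 h6).le

/-- the filtration lemma applies to the part of the system over a subcomplex `A` -/
theorem filt (A : Set Q) (hA : ∀ s t, X.le s t → t ∈ A → s ∈ A) (hAS : A ⊆ S) :
    FiltS C.D X.bd C.ε (C.F A) (X.Yg A) where
  dd := C.D_D
  bot j := by
    rw [eq_bot_iff]
    intro c hc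
    rw [Submodule.mem_bot]
    ext x
    by_contra h
    exact absurd ((C.mem_F.1 hc x h).2.1) (Nat.not_lt_zero _)
  top j q c hc := by
    rw [mem_F] at hc ⊢
    intro x hx
    obtain ⟨h1, h2, h3⟩ := hc x hx
    have := C.dim_cub x
    exact ⟨h1, by omega, h3⟩
  mono j q c hc := by
    rw [mem_F] at hc ⊢
    intro x hx
    obtain ⟨h1, h2, h3⟩ := hc x hx
    exact ⟨h1, by omega, h3⟩
  d_mem j q c hc := C.D_mem hA hc
  d_zero q c hc := by
    ext x
    by_contra h
    obtain ⟨y, hy, h1, h2⟩ := C.D_ne h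
    have := (C.mem_F.1 hc y hy).1
    omega
  aug j c hc := by
    classical
    ext t
    have h : C.ε c t = C.ε 0 t := by
      refine C.ε_congr fun y hy hy' => ?_
      by_contra h
      obtain ⟨h1, h2, h3⟩ := C.mem_F.1 hc y h
      rw [hy] at h2
      omega
    rw [h, map_zero]
  comm := C.ε_D
  surj j y hy := by
    have h : ∀ t : Q, ∃ c : G × C.I →₀ k, t ∈ A → X.dim t = j → c ∈ C.F A j (j + 1) ∧ C.ε c = single t 1 := by
      intro t
      by_cases h1 : t ∈ A
      · obtain ⟨c, hc, hc'⟩ := C.surj t (hAS h1)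
        refine ⟨c, fun _ h2 => ⟨?_, hc'⟩⟩
        rw [mem_F]
        intro x hx
        obtain ⟨h3, h4⟩ := hc (Finsupp.mem_support_iff.2 hx)
        have h3' : C.cub x = t := h3
        rw [h3']
        exact ⟨by omega, by omega, h1⟩
      · exact ⟨0, fun h2 => absurd h2 h1⟩
    choose c hc using h
    have hy' : ∀ t ∈ y.support, X.dim t = j ∧ t ∈ A := fun t ht => hy ht
    refine ⟨y.sum fun t a => a • c t, ?_, ?_⟩
    · refine Submodule.sum_mem _ fun t ht => Submodule.smul_mem _ _ ?_
      exact (hc t (hy' t ht).2 (hy' t ht).1).1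
    · have h1 : C.ε (y.sum fun t a => a • c t) = y.sum fun t a => C.ε (a • c t) := by
        rw [map_finsuppSum]
      rw [h1]
      conv_rhs => rw [← Finsupp.sum_single y]
      refine Finsupp.sum_congr fun t ht => ?_
      rw [map_smul, (hc t (hy' t ht).2 (hy' t ht).1).2, smul_single, smul_eq_mul, mul_one]
  ex0 j c hc hε := by
    classical
    have hc' := C.mem_F.1 hc
    -- the parts over the single cells of dimension `j`
    have h : ∀ t : Q, ∃ u : G × C.I →₀ k, t ∈ A → X.dim t = j →
        (∀ x, u x ≠ 0 → C.cub x = t ∧ C.deg x.2 = j + 1) ∧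
          ∀ x, C.cub x = t → C.D u x = C.part t c x := by
      intro t
      by_cases h1 : t ∈ A ∧ X.dim t = j
      · obtain ⟨u, hu, hu'⟩ := C.ex0 t (hAS h1.1) (C.part t c) (by
          rw [Finsupp.mem_supported]
          intro x hx
          rw [Finset.mem_coe, Finsupp.mem_support_iff] at hx
          have h2 : C.cub x = t := by
            by_contra h3
            exact hx (C.part_neg _ h3)
          refine ⟨h2, ?_⟩
          rw [C.part_pos _ h2] at hx
          rw [(hc' x hx).1, h1.2]) (by
          show C.ε _ = 0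
          ext s
          by_cases h2 : s = t
          · subst h2
            rw [C.ε_congr (c' := c) (fun y hy _ => C.part_pos _ hy), hε]
          · rw [C.ε_congr (c' := 0) (fun y hy _ => ?_), map_zero]
            rw [C.part_neg _ (by rw [hy]; exact h2), Finsupp.zero_apply])
        refine ⟨u, fun _ _ => ⟨fun x hx => ?_, hu'⟩⟩
        obtain ⟨h3, h4⟩ := hu (Finsupp.mem_support_iff.2 hx)
        exact ⟨h3, by rw [h4, h1.2]⟩
      · exact ⟨0, fun h2 h3 => absurd ⟨h2, h3⟩ h1⟩
    choose u hu using h
    let T : Finset Q := (c.support.image C.cub).filter fun t => X.dim t = j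
    have hT : ∀ t ∈ T, t ∈ A ∧ X.dim t = j := by
      intro t ht
      obtain ⟨h1, h2⟩ := Finset.mem_filter.1 ht
      obtain ⟨x, hx, rfl⟩ := Finset.mem_image.1 h1
      exact ⟨(hc' x (Finsupp.mem_support_iff.1 hx)).2.2, h2⟩
    refine ⟨∑ t ∈ T, u t, ?_, ?_⟩
    · refine Submodule.sum_mem _ fun t ht => ?_
      obtain ⟨h1, h2⟩ := hT t ht
      rw [mem_F]
      intro x hx
      obtain ⟨h3, h4⟩ := (hu t h1 h2).1 x hx
      rw [h3]
      exact ⟨h4, by omega, h1⟩
    · rw [mem_F]
      intro x hx
      -- the degree and the cell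
      have h0 : C.D (∑ t ∈ T, u t) ∈ C.F A j (j + 1) := by
        refine C.D_mem hA ?_
        refine Submodule.sum_mem _ fun t ht => ?_
        obtain ⟨h1, h2⟩ := hT t ht
        rw [mem_F]
        intro x hx
        obtain ⟨h3, h4⟩ := (hu t h1 h2).1 x hx
        rw [h3]
        exact ⟨h4, by omega, h1⟩
      obtain ⟨h1, h2, h3⟩ := C.mem_F.1 (Submodule.sub_mem _ hc h0) x hx
      refine ⟨h1, lt_of_le_of_ne (by omega) fun h4 => hx ?_, h3⟩
      -- now the cell of `x` has dimension `j`
      rw [Finsupp.sub_apply, sub_eq_zero]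
      by_cases h5 : C.cub x ∈ T
      · rw [C.D_congr (c' := u (C.cub x)), (hu _ h3 h4).2 x rfl, C.part_pos _ rfl]
        intro y hy
        rw [Finsupp.finsetSum_apply, Finset.sum_eq_single_of_mem _ h5]
        intro s hs hs'
        by_contra h6
        obtain ⟨h7, h8⟩ := (hu s (hT s hs).1 (hT s hs).2).1 y h6
        rw [h7] at hy
        have := X.dim_lt _ _ hy (Ne.symm hs')
        have := (hT s hs).2
        omega
      · have h6 : c x = 0 := by
          by_contra h6
          exact h5 (Finset.mem_filter.2 ⟨Finset.mem_image_of_mem _ (Finsupp.mem_support_iff.2 h6), h4⟩)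
        rw [h6, C.D_congr (c' := 0), map_zero, Finsupp.zero_apply]
        intro y hy
        rw [Finsupp.finsetSum_apply, Finsupp.zero_apply]
        refine Finset.sum_eq_zero fun s hs => ?_
        by_contra h7
        obtain ⟨h8, h9⟩ := (hu s (hT s hs).1 (hT s hs).2).1 y h7
        rw [h8] at hy
        have h10 : C.cub x ≠ s := fun h => h5 (h ▸ hs)
        have := X.dim_lt _ _ hy h10
        have := (hT s hs).2
        omega
  ex1 j q hq c hc hD := by
    classical
    have hc' := C.mem_F.1 hc
    have h : ∀ t : Q, ∃ u : G × C.I →₀ k, t ∈ A → X.dim t = q →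
        (∀ x, u x ≠ 0 → C.cub x = t ∧ C.deg x.2 = j + 2) ∧
          ∀ x, C.cub x = t → C.D u x = C.part t c x := by
      intro t
      by_cases h1 : t ∈ A ∧ X.dim t = q
      · obtain ⟨u, hu, hu'⟩ := C.ex1 t (hAS h1.1) j (by rw [h1.2]; exact hq) (C.part t c) (by
          rw [Finsupp.mem_supported]
          intro x hx
          rw [Finset.mem_coe, Finsupp.mem_support_iff] at hx
          have h2 : C.cub x = t := by
            by_contra h3
            exact hx (C.part_neg _ h3)
          refine ⟨h2, ?_⟩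
          rw [C.part_pos _ h2] at hx
          exact (hc' x hx).1) (by
          intro x hx
          show C.D _ x = 0
          rw [C.D_congr (c' := c)]
          · by_contra h3
            obtain ⟨h4, h5, h6⟩ := C.mem_F.1 hD x h3
            have h7 : C.cub x = t := hx
            rw [h7] at h5
            omega
          · intro y hy
            have h7 : C.cub x = t := hx
            rw [h7] at hy
            by_cases h8 : C.cub y = t
            · exact C.part_pos _ h8
            · rw [C.part_neg _ h8]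
              by_contra h9
              have h10 := (hc' y (Ne.symm h9)).2.1
              have := X.dim_lt _ _ hy (Ne.symm h8)
              omega)
        refine ⟨u, fun _ _ => ⟨fun x hx => ?_, hu'⟩⟩
        obtain ⟨h3, h4⟩ := hu (Finsupp.mem_support_iff.2 hx)
        exact ⟨h3, h4⟩
      · exact ⟨0, fun h2 h3 => absurd ⟨h2, h3⟩ h1⟩
    choose u hu using h
    let T : Finset Q := (c.support.image C.cub).filter fun t => X.dim t = q
    have hT : ∀ t ∈ T, t ∈ A ∧ X.dim t = q := by
      intro t ht
      obtain ⟨h1, h2⟩ := Finset.mem_filter.1 ht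
      obtain ⟨x, hx, rfl⟩ := Finset.mem_image.1 h1
      exact ⟨(hc' x (Finsupp.mem_support_iff.1 hx)).2.2, h2⟩
    have hU : ∑ t ∈ T, u t ∈ C.F A (j + 2) (q + 1) := by
      refine Submodule.sum_mem _ fun t ht => ?_
      obtain ⟨h1, h2⟩ := hT t ht
      rw [mem_F]
      intro x hx
      obtain ⟨h3, h4⟩ := (hu t h1 h2).1 x hx
      rw [h3]
      exact ⟨h4, by omega, h1⟩
    refine ⟨∑ t ∈ T, u t, hU, ?_⟩
    rw [mem_F]
    intro x hx
    obtain ⟨h1, h2, h3⟩ := C.mem_F.1 (Submodule.sub_mem _ hc (C.D_mem hA hU)) x hx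
    refine ⟨h1, lt_of_le_of_ne (by omega) fun h4 => hx ?_, h3⟩
    rw [Finsupp.sub_apply, sub_eq_zero]
    by_cases h5 : C.cub x ∈ T
    · rw [C.D_congr (c' := u (C.cub x)), (hu _ h3 h4).2 x rfl, C.part_pos _ rfl]
      intro y hy
      rw [Finsupp.finsetSum_apply, Finset.sum_eq_single_of_mem _ h5]
      intro s hs hs'
      by_contra h6
      obtain ⟨h7, h8⟩ := (hu s (hT s hs).1 (hT s hs).2).1 y h6
      rw [h7] at hy
      have := X.dim_lt _ _ hy (Ne.symm hs')
      have := (hT s hs).2
      omega
    · have h6 : c x = 0 := by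
        by_contra h6
        exact h5 (Finset.mem_filter.2 ⟨Finset.mem_image_of_mem _ (Finsupp.mem_support_iff.2 h6), h4⟩)
      rw [h6, C.D_congr (c' := 0), map_zero, Finsupp.zero_apply]
      intro y hy
      rw [Finsupp.finsetSum_apply, Finsupp.zero_apply]
      refine Finset.sum_eq_zero fun s hs => ?_
      by_contra h7
      obtain ⟨h8, h9⟩ := (hu s (hT s hs).1 (hT s hs).2).1 y h7
      rw [h8] at hy
      have h10 : C.cub x ≠ s := fun h => h5 (h ▸ hs)
      have := X.dim_lt _ _ hy h10
      have := (hT s hs).2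
      omega

end CSys

end Cm
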