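import Mathlib

/-!
# The filtration lemma

`FiltS` : a module `M` with a differential `D` and submodules `F j q` (the chains of degree `j` supported on the cells which
lie over cubes of dimension less than `q`), a module `Y` with a differential `bd` and submodules `Yg j`, and an augmentation
`ε` such that the columns `... → C (1, q) → C (0, q) → Y q → 0` are exact.  Then `ε` is a quasi-isomorphism:
* `FiltS.exact` : each cycle `z` with `ε z = 0` is the boundary of a chain in `F (j + 1) (j + 1)`;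
* `FiltS.lift` : each cycle of `Y` is the image of a cycle of `M`;
* `FiltS.exact'` : each cycle `z` such that `ε z` is a boundary is a boundary.
-/

set_option autoImplicit false

namespace Cm

/-- a filtered complex with exact columns over the complex `Y` -/
structure FiltS {k : Type*} [Ring k] {M Y : Type*} [AddCommGroup M] [Module k M] [AddCommGroup Y] [Module k Y]
    (D : M →ₗ[k] M) (bd : Y →ₗ[k] Y) (ε : M →ₗ[k] Y) (F : ℕ → ℕ → Submodule k M) (Yg : ℕ → Submodule k Y) : Prop where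
  dd : ∀ c, D (D c) = 0
  bot : ∀ j, F j 0 = ⊥
  top : ∀ j q, F j q ≤ F j (j + 1)
  mono : ∀ j q, F j q ≤ F j (q + 1)
  d_mem : ∀ j q, ∀ c ∈ F (j + 1) q, D c ∈ F j q
  d_zero : ∀ q, ∀ c ∈ F 0 q, D c = 0
  aug : ∀ j, ∀ c ∈ F j j, ε c = 0
  comm : ∀ c, ε (D c) = bd (ε c)
  surj : ∀ j, ∀ y ∈ Yg j, ∃ c ∈ F j (j + 1), ε c = y
  ex0 : ∀ j, ∀ c ∈ F j (j + 1), ε c = 0 → ∃ u ∈ F (j + 1) (j + 1), c - D u ∈ F j j
  ex1 : ∀ j q, q ≤ j → ∀ c ∈ F (j + 1) (q + 1), D c ∈ F j q → ∃ u ∈ F (j + 2) (q + 1), c - D u ∈ F (j + 1) q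

namespace FiltS

variable {k : Type*} [Ring k] {M Y : Type*} [AddCommGroup M] [Module k M] [AddCommGroup Y] [Module k Y]
    {D : M →ₗ[k] M} {bd : Y →ₗ[k] Y} {ε : M →ₗ[k] Y} {F : ℕ → ℕ → Submodule k M} {Yg : ℕ → Submodule k Y}

lemma mono' (h : FiltS D bd ε F Yg) (j : ℕ) {q q' : ℕ} (hq : q ≤ q') : F j q ≤ F j q' := by
  induction hq with
  | refl => exact le_rfl
  | step _ ih => exact ih.trans (h.mono j _)

/-- a cycle in the part `q ≤ j` of the filtration is a boundary -/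
lemma exact_aux (h : FiltS D bd ε F Yg) (j : ℕ) :
    ∀ q : ℕ, q ≤ j + 1 → ∀ z ∈ F (j + 1) q, D z = 0 → ∃ u ∈ F (j + 2) (j + 2), D u = z
  | 0, _, z, hz, _ => by
    rw [h.bot, Submodule.mem_bot] at hz
    exact ⟨0, Submodule.zero_mem _, by rw [map_zero, hz]⟩
  | q + 1, hq, z, hz, hd => by
    obtain ⟨u, hu, hu'⟩ := h.ex1 j q (by omega) z hz (by rw [hd]; exact Submodule.zero_mem _)
    obtain ⟨v, hv, hv'⟩ := exact_aux h j q (by omega) _ hu' (by rw [map_sub, hd, h.dd, sub_zero])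
    refine ⟨u + v, Submodule.add_mem _ (h.mono' _ (by omega) hu) hv, ?_⟩
    rw [map_add, hv']
    abel

/-- a cycle `z` with `ε z = 0` is the boundary of a chain on which `ε` is zero -/
theorem exact (h : FiltS D bd ε F Yg) (j : ℕ) (z : M) (hzm : z ∈ F j (j + 1)) (hz : D z = 0) (hε : ε z = 0) :
    ∃ u ∈ F (j + 1) (j + 1), D u = z := by
  obtain ⟨u, hu, hu'⟩ := h.ex0 j z hzm hε
  cases j with
  | zero =>
    rw [h.bot, Submodule.mem_bot, sub_eq_zero] at hu'
    exact ⟨u, hu, hu'.symm⟩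
  | succ j =>
    obtain ⟨v, hv, hv'⟩ := h.exact_aux j (j + 1) le_rfl _ hu' (by rw [map_sub, hz, h.dd, sub_zero])
    refine ⟨u + v, Submodule.add_mem _ hu hv, ?_⟩
    rw [map_add, hv']
    abel

/-- each cycle of `Y` is the image of a cycle of `M` -/
theorem lift (h : FiltS D bd ε F Yg) (j : ℕ) (y : Y) (hyj : y ∈ Yg j) (hy : bd y = 0) :
    ∃ z ∈ F j (j + 1), D z = 0 ∧ ε z = y := by
  obtain ⟨c, hc, rfl⟩ := h.surj _ y hyj
  cases j with
  | zero => exact ⟨c, hc, h.d_zero _ _ hc, rfl⟩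
  | succ j =>
    have h1 : ε (D c) = 0 := by rw [h.comm, hy]
    obtain ⟨u, hu, hu'⟩ := h.exact j (D c) (h.top _ _ (h.d_mem j _ c hc)) (h.dd c) h1
    exact ⟨c - u, Submodule.sub_mem _ hc (h.mono _ _ hu), by rw [map_sub, hu', sub_self],
      by rw [map_sub, h.aug _ _ hu, sub_zero]⟩

/-- a cycle whose image in `Y` is a boundary is a boundary -/
theorem exact' (h : FiltS D bd ε F Yg) (j : ℕ) (z : M) (hzm : z ∈ F j (j + 1)) (hz : D z = 0) (y : Y)
    (hy : y ∈ Yg (j + 1)) (hε : ε z = bd y) : ∃ u ∈ F (j + 1) (j + 2), D u = z := by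
  obtain ⟨c, hc, rfl⟩ := h.surj _ y hy
  obtain ⟨u, hu', hu⟩ := h.exact j (z - D c) (Submodule.sub_mem _ hzm (h.top _ _ (h.d_mem j _ c hc)))
    (by rw [map_sub, hz, h.dd, sub_zero]) (by rw [map_sub, hε, h.comm, sub_self])
  exact ⟨u + c, Submodule.add_mem _ (h.mono _ _ hu') hc, by rw [map_add, hu, sub_add_cancel]⟩

end FiltS

end Cm
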